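import Mathlib

/-!
# Connected set density at minimum degree three (a conjecture of Vince)

For a finite simple connected graph `G` on `n` vertices let `N(G)` be the number of connected sets
(nonempty vertex sets inducing a connected subgraph), `A(G)` their average size and
`D(G) = A(G) / n`.  We prove `D(G) ≥ 1/2 + 1/(2 N(G))` whenever the minimum degree is at least 3.

Idea of the proof.  Removing / adding one vertex gives
`∑_S (2|S| - n) = #{(S, w) : w ∈ S, S \ w not connected} - #{(S, w) : w ∉ S, S ∪ w not connected}`,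
the sums being over connected sets `S`.  The one-element sets give `n` pairs of the first kind.
A triple `(S, u, T)` with `S`, `T` connected, disjoint and without edges between them, and `u`
outside both and adjacent to both, gives the pair `(S ∪ {u} ∪ T, u)` of the first kind, and each
pair arises from at most two triples.  For fixed `S` there are at least twice as many pairs
`(u, T)` as there are vertices outside the closed neighbourhood of `S`: each such vertex `w`
receives a geodesic from `w` towards `S`, and the component of `K \ w` containing a chosen vertex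
attached to the boundary of `S`, where `K` is the component of `w` in the complement of the closed
neighbourhood of `S`; the degree condition makes all these pairs distinct.
-/

open Finset

namespace Pool.Agent.Results.MP_900e3c_co.VinceMinDegreeThree

universe u

section Definitions

variable {V : Type u} [Fintype V]

/-- The family of connected sets of `G`: the nonempty vertex sets `S` for which the induced
subgraph `G[S]` is connected. -/
noncomputable def connectedSets (G : SimpleGraph V) : Finset (Finset V) :=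
  open Classical in
  univ.filter (fun S => S.Nonempty ∧ (G.induce (S : Set V)).Connected)

/-- `N(G)`, the number of connected sets of `G`. -/
noncomputable def numConnectedSets (G : SimpleGraph V) : ℕ := (connectedSets G).card

/-- `A(G)`, the average size of a connected set of `G`. -/
noncomputable def averageOrder (G : SimpleGraph V) : ℝ :=
  (∑ S ∈ connectedSets G, (S.card : ℝ)) / (numConnectedSets G : ℝ)

/-- `D(G) = A(G) / n`, the connected set density of `G`, where `n` is the number of vertices. -/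
noncomputable def density (G : SimpleGraph V) : ℝ :=
  averageOrder G / (Fintype.card V : ℝ)

end Definitions

section Proof

set_option linter.unusedSectionVars false

variable {V : Type u} [Fintype V] [DecidableEq V]

/-- One step of a walk that stays in `A`. -/
def Step (G : SimpleGraph V) (A : Finset V) (x y : V) : Prop := G.Adj x y ∧ y ∈ A

/-- Reachability through `A`. -/
def Rch (G : SimpleGraph V) (A : Finset V) (x y : V) : Prop :=
  Relation.ReflTransGen (Step G A) x y

/-- Connectedness of a vertex set, in terms of `Rch`. -/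
def Conn (G : SimpleGraph V) (S : Finset V) : Prop :=
  S.Nonempty ∧ ∀ x ∈ S, ∀ y ∈ S, Rch G S x y

lemma Rch.mono {G : SimpleGraph V} {A B : Finset V} (h : A ⊆ B) {x y : V}
    (hxy : Rch G A x y) : Rch G B x y := by
  induction hxy with
  | refl => exact Relation.ReflTransGen.refl
  | tail _ hbc ih => exact Relation.ReflTransGen.tail ih ⟨hbc.1, h hbc.2⟩

lemma Rch.mem {G : SimpleGraph V} {A : Finset V} {x y : V} (hxy : Rch G A x y) (hx : x ∈ A) :
    y ∈ A := by
  induction hxy with
  | refl => exact hx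
  | tail _ h _ => exact h.2

lemma Rch.symm {G : SimpleGraph V} {A : Finset V} {x y : V} (hxy : Rch G A x y) (hx : x ∈ A) :
    Rch G A y x := by
  induction hxy with
  | refl => exact Relation.ReflTransGen.refl
  | @tail b c hab hbc ih =>
    exact Relation.ReflTransGen.head ⟨hbc.1.symm, Rch.mem hab hx⟩ ih

lemma Rch.trans {G : SimpleGraph V} {A : Finset V} {x y z : V} (hxy : Rch G A x y)
    (hyz : Rch G A y z) : Rch G A x z := Relation.ReflTransGen.trans hxy hyz

lemma conn_iff (G : SimpleGraph V) (S : Finset V) :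
    Conn G S ↔ (S.Nonempty ∧ (G.induce (S : Set V)).Connected) := by
  constructor
  · rintro ⟨hne, h⟩
    refine ⟨hne, ?_⟩
    have : Nonempty (S : Set V) := by
      obtain ⟨x, hx⟩ := hne
      exact ⟨⟨x, hx⟩⟩
    refine ⟨?_⟩
    intro x y
    rw [SimpleGraph.reachable_iff_reflTransGen]
    have key : ∀ (a b : V) (ha : a ∈ S), Rch G S a b → ∀ (hb : b ∈ S),
        Relation.ReflTransGen (G.induce (S : Set V)).Adj ⟨a, ha⟩ ⟨b, hb⟩ := by
      intro a b ha hab
      induction hab with
      | refl => intro _; exact Relation.ReflTransGen.refl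
      | @tail c d hac hcd ih =>
        intro hd
        have hc : c ∈ S := Rch.mem hac ha
        exact Relation.ReflTransGen.tail (ih hc) (by simpa using hcd.1)
    exact key x.1 y.1 x.2 (h x.1 x.2 y.1 y.2) y.2
  · rintro ⟨hne, h⟩
    refine ⟨hne, ?_⟩
    intro x hx y hy
    have := h.preconnected ⟨x, hx⟩ ⟨y, hy⟩
    rw [SimpleGraph.reachable_iff_reflTransGen] at this
    have key : ∀ (a b : (S : Set V)), Relation.ReflTransGen (G.induce (S : Set V)).Adj a b →
        Rch G S a.1 b.1 := by
      intro a b hab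
      induction hab with
      | refl => exact Relation.ReflTransGen.refl
      | @tail c d hac hcd ih =>
        exact Relation.ReflTransGen.tail ih ⟨by simpa using hcd, d.2⟩
    exact key _ _ this

lemma conn_union {G : SimpleGraph V} {A B : Finset V} (hA : Conn G A) (hB : Conn G B)
    {z : V} (hzA : z ∈ A) (hzB : z ∈ B) : Conn G (A ∪ B) := by
  refine ⟨⟨z, mem_union_left _ hzA⟩, ?_⟩
  have h1 : ∀ x ∈ A ∪ B, Rch G (A ∪ B) x z := by
    intro x hx
    rcases mem_union.1 hx with h | h
    · exact (hA.2 x h z hzA).mono subset_union_left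
    · exact (hB.2 x h z hzB).mono subset_union_right
  intro x hx y hy
  exact (h1 x hx).trans ((h1 y hy).symm hy)

lemma conn_singleton (G : SimpleGraph V) (x : V) : Conn G {x} := by
  refine ⟨singleton_nonempty x, ?_⟩
  intro a ha b hb
  rw [mem_singleton] at ha hb
  subst ha; subst hb
  exact Relation.ReflTransGen.refl

lemma conn_insert {G : SimpleGraph V} {S : Finset V} (hS : Conn G S) {u x : V} (hx : x ∈ S)
    (hux : G.Adj u x) : Conn G (insert u S) := by
  have hpair : Conn G {u, x} := by
    refine ⟨⟨u, by simp⟩, ?_⟩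
    have h1 : Rch G {u, x} u x := Relation.ReflTransGen.single ⟨hux, by simp⟩
    have h2 : Rch G {u, x} x u := Relation.ReflTransGen.single ⟨hux.symm, by simp⟩
    intro a ha b hb
    rw [mem_insert, mem_singleton] at ha hb
    rcases ha with rfl | rfl <;> rcases hb with rfl | rfl
    · exact Relation.ReflTransGen.refl
    · exact h1
    · exact h2
    · exact Relation.ReflTransGen.refl
  have := conn_union hpair hS (z := x) (by simp) hx
  have heq : ({u, x} : Finset V) ∪ S = insert u S := by
    ext y
    simp only [mem_union, mem_insert, mem_singleton]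
    constructor
    · rintro ((h | h) | h)
      · exact Or.inl h
      · exact Or.inr (h ▸ hx)
      · exact Or.inr h
    · rintro (h | h)
      · exact Or.inl (Or.inl h)
      · exact Or.inr h
  rwa [heq] at this

/-- A nonempty part of a connected set closed under adjacency is everything. -/
lemma subset_of_closed {G : SimpleGraph V} {W : Finset V} (hW : Conn G W) {P : V → Prop}
    {z : V} (hz : z ∈ W) (hPz : P z) (hcl : ∀ x ∈ W, P x → ∀ y ∈ W, G.Adj x y → P y) :
    ∀ y ∈ W, P y := by
  intro y hy
  have hzy := hW.2 z hz y hy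
  have key : ∀ b, Rch G W z b → P b ∧ b ∈ W := by
    intro b hb
    induction hb with
    | refl => exact ⟨hPz, hz⟩
    | @tail c d _ hcd ih => exact ⟨hcl c ih.2 ih.1 d hcd.2 hcd.1, hcd.2⟩
  exact (key y hzy).1

/-- the component of `x` in `A` -/
noncomputable def comp (G : SimpleGraph V) (A : Finset V) (x : V) : Finset V :=
  open Classical in A.filter (fun y => Rch G A x y)

lemma mem_comp {G : SimpleGraph V} {A : Finset V} {x y : V} :
    y ∈ comp G A x ↔ y ∈ A ∧ Rch G A x y := by
  classical
  simp [comp]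

lemma comp_subset (G : SimpleGraph V) (A : Finset V) (x : V) : comp G A x ⊆ A := by
  intro y hy
  exact (mem_comp.1 hy).1

lemma self_mem_comp {G : SimpleGraph V} {A : Finset V} {x : V} (hx : x ∈ A) :
    x ∈ comp G A x := mem_comp.2 ⟨hx, Relation.ReflTransGen.refl⟩

lemma comp_conn {G : SimpleGraph V} {A : Finset V} {x : V} (hx : x ∈ A) :
    Conn G (comp G A x) := by
  refine ⟨⟨x, self_mem_comp hx⟩, ?_⟩
  have h1 : ∀ y, Rch G A x y → Rch G (comp G A x) x y := by
    intro y hy
    induction hy with
    | refl => exact Relation.ReflTransGen.refl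
    | @tail c d hc hcd ih =>
      exact Relation.ReflTransGen.tail ih
        ⟨hcd.1, mem_comp.2 ⟨hcd.2, Relation.ReflTransGen.tail hc hcd⟩⟩
  intro a ha b hb
  have h2 := h1 a (mem_comp.1 ha).2
  have h3 := h1 b (mem_comp.1 hb).2
  exact (h2.symm (self_mem_comp hx)).trans h3

lemma comp_adj {G : SimpleGraph V} {A : Finset V} {x y z : V} (hy : y ∈ comp G A x)
    (hz : z ∈ A) (hyz : G.Adj y z) : z ∈ comp G A x :=
  mem_comp.2 ⟨hz, Relation.ReflTransGen.tail (mem_comp.1 hy).2 ⟨hyz, hz⟩⟩

lemma comp_eq {G : SimpleGraph V} {A : Finset V} {x y : V} (hx : x ∈ A)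
    (hy : y ∈ comp G A x) : comp G A y = comp G A x := by
  have hxy := (mem_comp.1 hy).2
  have hyA := (mem_comp.1 hy).1
  ext z
  rw [mem_comp, mem_comp]
  constructor
  · rintro ⟨h1, h2⟩
    exact ⟨h1, hxy.trans h2⟩
  · rintro ⟨h1, h2⟩
    exact ⟨h1, (hxy.symm hx).trans h2⟩

lemma subset_comp {G : SimpleGraph V} {A T : Finset V} (hT : Conn G T) (hTA : T ⊆ A) {x : V}
    (hx : x ∈ T) : T ⊆ comp G A x := by
  intro y hy
  exact mem_comp.2 ⟨hTA hy, (hT.2 x hx y hy).mono hTA⟩

/-! ### Levels: distance from a set -/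

lemma exists_walk_to {G : SimpleGraph V} (hG : G.Connected) {S : Finset V} (hS : S.Nonempty)
    (x : V) : ∃ n : ℕ, ∃ s ∈ S, ∃ p : G.Walk x s, p.length = n := by
  obtain ⟨s, hs⟩ := hS
  obtain ⟨p⟩ := hG.preconnected x s
  exact ⟨p.length, s, hs, p, rfl⟩

open Classical in
/-- distance of `x` from the set `S` -/
noncomputable def lev {G : SimpleGraph V} (hG : G.Connected) {S : Finset V} (hS : S.Nonempty)
    (x : V) : ℕ := Nat.find (exists_walk_to hG hS x)

lemma lev_spec {G : SimpleGraph V} (hG : G.Connected) {S : Finset V} (hS : S.Nonempty)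
    (x : V) : ∃ s ∈ S, ∃ p : G.Walk x s, p.length = lev hG hS x := by
  classical
  exact Nat.find_spec (exists_walk_to hG hS x)

lemma lev_le {G : SimpleGraph V} (hG : G.Connected) {S : Finset V} (hS : S.Nonempty)
    {x s : V} (hs : s ∈ S) (p : G.Walk x s) : lev hG hS x ≤ p.length := by
  classical
  exact Nat.find_min' (exists_walk_to hG hS x) ⟨s, hs, p, rfl⟩

lemma lev_adj {G : SimpleGraph V} (hG : G.Connected) {S : Finset V} (hS : S.Nonempty)
    {x y : V} (hxy : G.Adj x y) : lev hG hS x ≤ lev hG hS y + 1 := by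
  obtain ⟨s, hs, p, hp⟩ := lev_spec hG hS y
  have := lev_le hG hS hs (SimpleGraph.Walk.cons hxy p)
  rw [SimpleGraph.Walk.length_cons, hp] at this
  exact this

lemma lev_eq_zero {G : SimpleGraph V} (hG : G.Connected) {S : Finset V} (hS : S.Nonempty)
    {x : V} : lev hG hS x = 0 ↔ x ∈ S := by
  constructor
  · intro h
    obtain ⟨s, hs, p, hp⟩ := lev_spec hG hS x
    rw [h] at hp
    have := SimpleGraph.Walk.eq_of_length_eq_zero hp
    rwa [this]
  · intro h
    have := lev_le hG hS h (SimpleGraph.Walk.nil (G := G) (u := x))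
    simpa using this

lemma exists_pred {G : SimpleGraph V} (hG : G.Connected) {S : Finset V} (hS : S.Nonempty)
    {x : V} (hx : 0 < lev hG hS x) : ∃ y, G.Adj x y ∧ lev hG hS x = lev hG hS y + 1 := by
  obtain ⟨s, hs, p, hp⟩ := lev_spec hG hS x
  cases p with
  | nil => simp at hp; omega
  | @cons _ y _ h q =>
    refine ⟨y, h, ?_⟩
    rw [SimpleGraph.Walk.length_cons] at hp
    have h1 := lev_le hG hS hs q
    have h2 := lev_adj hG hS h
    omega

/-- vertices outside `S` adjacent to `S` -/
noncomputable def bdry (G : SimpleGraph V) (S : Finset V) : Finset V :=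
  open Classical in univ.filter (fun u => u ∉ S ∧ ∃ x ∈ S, G.Adj u x)

/-- vertices outside `S` not adjacent to `S` -/
noncomputable def far (G : SimpleGraph V) (S : Finset V) : Finset V :=
  open Classical in univ.filter (fun u => u ∉ S ∧ ∀ x ∈ S, ¬ G.Adj u x)

lemma mem_bdry {G : SimpleGraph V} {S : Finset V} {u : V} :
    u ∈ bdry G S ↔ u ∉ S ∧ ∃ x ∈ S, G.Adj u x := by
  classical
  simp [bdry]

lemma mem_far {G : SimpleGraph V} {S : Finset V} {u : V} :
    u ∈ far G S ↔ u ∉ S ∧ ∀ x ∈ S, ¬ G.Adj u x := by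
  classical
  simp [far]

lemma mem_far_iff_lev {G : SimpleGraph V} (hG : G.Connected) {S : Finset V} (hS : S.Nonempty)
    {x : V} : x ∈ far G S ↔ 2 ≤ lev hG hS x := by
  rw [mem_far]
  constructor
  · rintro ⟨h1, h2⟩
    have h0 : lev hG hS x ≠ 0 := fun h => h1 ((lev_eq_zero hG hS).1 h)
    by_contra hlt
    obtain ⟨y, hy, hy2⟩ := exists_pred hG hS (x := x) (by omega)
    have : lev hG hS y = 0 := by omega
    exact h2 y ((lev_eq_zero hG hS).1 this) hy
  · intro h
    refine ⟨fun h1 => ?_, fun y hy hxy => ?_⟩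
    · have := (lev_eq_zero hG hS).2 h1
      omega
    · have h3 := (lev_eq_zero hG hS).2 hy
      have h4 := lev_adj hG hS hxy
      omega

lemma mem_bdry_iff_lev {G : SimpleGraph V} (hG : G.Connected) {S : Finset V} (hS : S.Nonempty)
    {x : V} : x ∈ bdry G S ↔ lev hG hS x = 1 := by
  rw [mem_bdry]
  constructor
  · rintro ⟨h1, y, hy, hxy⟩
    have h0 : lev hG hS x ≠ 0 := fun h => h1 ((lev_eq_zero hG hS).1 h)
    have h3 := (lev_eq_zero hG hS).2 hy
    have h4 := lev_adj hG hS hxy
    omega
  · intro h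
    refine ⟨fun h1 => ?_, ?_⟩
    · have := (lev_eq_zero hG hS).2 h1
      omega
    · obtain ⟨y, hy, hy2⟩ := exists_pred hG hS (x := x) (by omega)
      exact ⟨y, (lev_eq_zero hG hS).1 (by omega), hy⟩

/-- The geodesic data attached to a vertex `w` far from `S`. -/
lemma exists_geo {G : SimpleGraph V} (hG : G.Connected) {S : Finset V} (hS : S.Nonempty) :
    ∀ (n : ℕ) (w : V), lev hG hS w = n + 2 → ∃ (T : Finset V) (g : V), T ⊆ far G S ∧
      Conn G T ∧ w ∈ T ∧ g ∈ bdry G S ∧ (∃ x ∈ T, G.Adj g x) ∧
      (∀ x ∈ T, x ≠ w → lev hG hS x < lev hG hS w) ∧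
      (∀ x ∈ T, ∀ y ∈ T, G.Adj w x → G.Adj w y → x = y) ∧
      (T ≠ {w} → ∀ u ∈ bdry G S, ¬ G.Adj w u) := by
  intro n
  induction n with
  | zero =>
    intro w hw
    obtain ⟨g, hg, hg2⟩ := exists_pred hG hS (x := w) (by omega)
    refine ⟨{w}, g, ?_, conn_singleton G w, mem_singleton_self w, ?_, ?_, ?_, ?_, ?_⟩
    · intro x hx
      rw [mem_singleton] at hx
      subst hx
      rw [mem_far_iff_lev hG hS]
      omega
    · rw [mem_bdry_iff_lev hG hS]
      omega
    · exact ⟨w, mem_singleton_self w, hg.symm⟩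
    · intro x hx hne
      exact absurd (mem_singleton.1 hx) hne
    · intro x hx y hy _ _
      rw [mem_singleton.1 hx, mem_singleton.1 hy]
    · intro h
      exact absurd rfl h
  | succ n ih =>
    intro w hw
    obtain ⟨w1, hw1, hw2⟩ := exists_pred hG hS (x := w) (by omega)
    obtain ⟨T, g, hT1, hT2, hT3, hT4, hT5, hT6, hT7, hT8⟩ := ih w1 (by omega)
    have hlevT : ∀ x ∈ T, lev hG hS x < lev hG hS w := by
      intro x hx
      by_cases hxw : x = w1
      · subst hxw; omega
      · have := hT6 x hx hxw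
        omega
    have hnb : ∀ x ∈ insert w T, G.Adj w x → x = w1 := by
      intro x hx hwx
      rw [mem_insert] at hx
      rcases hx with rfl | hx
      · exact absurd hwx (G.loopless.irrefl _)
      · by_contra hne
        have h1 := hT6 x hx hne
        have h2 := lev_adj hG hS hwx
        omega
    refine ⟨insert w T, g, ?_, conn_insert hT2 hT3 hw1, mem_insert_self _ _, hT4, ?_, ?_, ?_, ?_⟩
    · intro x hx
      rw [mem_insert] at hx
      rcases hx with rfl | hx
      · rw [mem_far_iff_lev hG hS]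
        omega
      · exact hT1 hx
    · obtain ⟨x, hx, hgx⟩ := hT5
      exact ⟨x, mem_insert_of_mem hx, hgx⟩
    · intro x hx hne
      rw [mem_insert] at hx
      rcases hx with rfl | hx
      · exact absurd rfl hne
      · exact hlevT x hx
    · intro x hx y hy hwx hwy
      rw [hnb x hx hwx, hnb y hy hwy]
    · intro _ u hu hwu
      rw [mem_bdry_iff_lev hG hS] at hu
      have := lev_adj hG hS hwu
      omega


lemma trichotomy (G : SimpleGraph V) (S : Finset V) (v : V) :
    v ∈ S ∨ v ∈ bdry G S ∨ v ∈ far G S := by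
  by_cases h : v ∈ S
  · exact Or.inl h
  · by_cases h2 : ∃ x ∈ S, G.Adj v x
    · exact Or.inr (Or.inl (mem_bdry.2 ⟨h, h2⟩))
    · refine Or.inr (Or.inr (mem_far.2 ⟨h, ?_⟩))
      intro x hx hvx
      exact h2 ⟨x, hx, hvx⟩

/-- The pairs `(u, T)`: `u` in the boundary of `S`, `T` a connected set avoiding `S` and its
boundary, and `u` adjacent to `T`. -/
noncomputable def pairs (G : SimpleGraph V) (S : Finset V) : Finset (V × Finset V) :=
  open Classical in
  univ.filter (fun p => p.1 ∈ bdry G S ∧ Conn G p.2 ∧ p.2 ⊆ far G S ∧ ∃ x ∈ p.2, G.Adj p.1 x)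

lemma mem_pairs {G : SimpleGraph V} {S : Finset V} {p : V × Finset V} :
    p ∈ pairs G S ↔ p.1 ∈ bdry G S ∧ Conn G p.2 ∧ p.2 ⊆ far G S ∧ ∃ x ∈ p.2, G.Adj p.1 x := by
  classical
  simp [pairs]

/-- The local inequality. -/
lemma two_mul_card_far_le {G : SimpleGraph V} (hG : G.Connected)
    (hdeg : ∀ v, ∃ x y z, G.Adj v x ∧ G.Adj v y ∧ G.Adj v z ∧ x ≠ y ∧ x ≠ z ∧ y ≠ z)
    {S : Finset V} (hS : S.Nonempty) :
    2 * (far G S).card ≤ (pairs G S).card := by
  classical
  have hne : Nonempty V := ⟨hS.choose⟩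
  set R := far G S with hR
  set D := bdry G S with hD
  have hgeo : ∀ w, w ∈ R → ∃ (T : Finset V) (g : V), T ⊆ R ∧
      Conn G T ∧ w ∈ T ∧ g ∈ D ∧ (∃ x ∈ T, G.Adj g x) ∧
      (∀ x ∈ T, x ≠ w → lev hG hS x < lev hG hS w) ∧
      (∀ x ∈ T, ∀ y ∈ T, G.Adj w x → G.Adj w y → x = y) ∧
      (T ≠ {w} → ∀ u ∈ D, ¬ G.Adj w u) := by
    intro w hw
    rw [hR, mem_far_iff_lev hG hS] at hw
    exact exists_geo hG hS (lev hG hS w - 2) w (by omega)
  choose! Tm g hT1 hT2 hT3 hT4 hT5 hT6 hT7 hT8 using hgeo
  -- choice of an attachment for each component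
  have hcomp : ∀ K : Finset V, (∃ w ∈ R, K = comp G R w) → ∃ c u, c ∈ K ∧ u ∈ D ∧ G.Adj c u ∧
      ((∃ u1 ∈ D, u1 ≠ g c ∧ G.Adj c u1) → u ≠ g c) := by
    rintro K ⟨w, hw, rfl⟩
    obtain ⟨c, hc, hgc⟩ := hT5 w hw
    have hcK : c ∈ comp G R w := subset_comp (hT2 w hw) (hT1 w hw) (hT3 w hw) hc
    by_cases hex : ∃ u1 ∈ D, u1 ≠ g c ∧ G.Adj c u1
    · obtain ⟨u1, hu1, hne, hadj⟩ := hex
      exact ⟨c, u1, hcK, hu1, hadj, fun _ => hne⟩
    · exact ⟨c, g w, hcK, hT4 w hw, hgc.symm, fun h => absurd h hex⟩
  choose! c u hc1 hc2 hc3 hc4 using hcomp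
  set K : V → Finset V := fun w => comp G R w with hK
  have hKex : ∀ w ∈ R, ∃ w' ∈ R, K w = comp G R w' := fun w hw => ⟨w, hw, rfl⟩
  set Tx : V → Finset V := fun w =>
    if w = c (K w) then K w else comp G ((K w).erase w) (c (K w)) with hTx
  have hKR : ∀ w, K w ⊆ R := fun w => comp_subset G R w
  have hKself : ∀ w ∈ R, w ∈ K w := fun w hw => self_mem_comp hw
  have hcK : ∀ w ∈ R, c (K w) ∈ K w := fun w hw => hc1 _ (hKex w hw)
  have hcTx : ∀ w ∈ R, c (K w) ∈ Tx w := by
    intro w hw
    simp only [hTx]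
    split_ifs with h
    · exact hcK w hw
    · exact self_mem_comp (mem_erase.2 ⟨fun h2 => h h2.symm, hcK w hw⟩)
  have hTxK : ∀ w ∈ R, Tx w ⊆ K w := by
    intro w hw
    simp only [hTx]
    split_ifs with h
    · exact subset_rfl
    · exact (comp_subset _ _ _).trans (erase_subset _ _)
  have hTxconn : ∀ w ∈ R, Conn G (Tx w) := by
    intro w hw
    simp only [hTx]
    split_ifs with h
    · exact comp_conn hw
    · exact comp_conn (mem_erase.2 ⟨fun h2 => h h2.symm, hcK w hw⟩)
  have hTxbd : ∀ w ∈ R, ∀ x ∈ Tx w, ∀ y ∈ R, G.Adj x y → y ∉ Tx w → y = w := by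
    intro w hw x hx y hy hxy hyT
    have hyK : y ∈ K w := comp_adj (hTxK w hw hx) hy hxy
    by_contra hne
    apply hyT
    simp only [hTx] at hx ⊢
    split_ifs at hx ⊢ with h
    · exact hyK
    · exact comp_adj hx (mem_erase.2 ⟨hne, hyK⟩) hxy
  have hTxself : ∀ w ∈ R, w ∈ Tx w → w = c (K w) := by
    intro w hw h
    by_contra hne
    simp only [hTx, if_neg hne] at h
    exact (mem_erase.1 (comp_subset _ _ _ h)).1 rfl
  have hTxKeq : ∀ w ∈ R, w = c (K w) → Tx w = K w := by
    intro w hw h
    simp only [hTx]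
    rw [if_pos h]
  -- the injection
  set f : V × Bool → V × Finset V := fun p =>
    if p.2 then (u (K p.1), Tx p.1) else (g p.1, Tm p.1) with hf
  have hmaps : ∀ p ∈ R ×ˢ (univ : Finset Bool), f p ∈ pairs G S := by
    rintro ⟨w, b⟩ hp
    have hw : w ∈ R := (mem_product.1 hp).1
    rw [mem_pairs]
    cases b with
    | true =>
      simp only [hf, if_true]
      exact ⟨hc2 _ (hKex w hw), hTxconn w hw, (hTxK w hw).trans (hKR w),
        c (K w), hcTx w hw, (hc3 _ (hKex w hw)).symm⟩
    | false =>
      simp only [hf]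
      exact ⟨hT4 w hw, hT2 w hw, hT1 w hw, hT5 w hw⟩
  -- equality of components
  have hKeq : ∀ w ∈ R, ∀ x ∈ K w, K x = K w := fun w hw x hx => comp_eq hw hx
  have hinjT : ∀ w ∈ R, ∀ w' ∈ R, Tx w = Tx w' → w = w' := by
    intro w hw w' hw' heq
    have hKK : K w = K w' := by
      have h1 := hKeq w hw _ (hTxK w hw (hcTx w hw))
      have h2 := hKeq w' hw' _ (hTxK w' hw' (heq ▸ hcTx w hw))
      rw [← h1, ← h2]
    by_contra hne
    by_cases hwc : w = c (K w)
    · have h1 : Tx w' = K w' := by rw [← heq, hTxKeq w hw hwc, hKK]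
      have h2 := hTxself w' hw' (by rw [h1]; exact hKself w' hw')
      rw [← hKK, ← hwc] at h2
      exact hne h2.symm
    · have hwT : w ∉ Tx w := fun h => hwc (hTxself w hw h)
      have hex : ∃ x ∈ Tx w, ∃ y ∈ K w, G.Adj x y ∧ y ∉ Tx w := by
        by_contra hcon
        push Not at hcon
        have := subset_of_closed (comp_conn hw) (P := fun y => y ∈ Tx w) (hcK w hw)
          (hcTx w hw) (fun x _ hx y hy hxy => hcon x hx y hy hxy) w (hKself w hw)
        exact hwT this
      obtain ⟨x, hx, y, hy, hxy, hyT⟩ := hex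
      have h1 := hTxbd w hw x hx y (hKR w hy) hxy hyT
      have h2 := hTxbd w' hw' x (heq ▸ hx) y (hKR w hy) hxy (heq ▸ hyT)
      exact hne (h1.symm.trans h2)
  have hinjF : ∀ w ∈ R, ∀ w' ∈ R, Tm w = Tm w' → w = w' := by
    intro w hw w' hw' heq
    by_contra hne
    have h1 := hT6 w hw w' (heq ▸ hT3 w' hw') (fun h => hne h.symm)
    have h2 := hT6 w' hw' w (heq ▸ hT3 w hw) hne
    omega
  have hmixed : ∀ w ∈ R, ∀ w' ∈ R, ¬ (u (K w) = g w' ∧ Tx w = Tm w') := by
    rintro w hw w' hw' ⟨hu, hT⟩
    have hw'T : w' ∈ Tx w := hT ▸ hT3 w' hw'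
    obtain ⟨x, y, z, hx, hy, hz, hxy, hxz, hyz⟩ := hdeg w'
    have hnS : ∀ v, G.Adj w' v → v ∉ S := fun v hv hvS => (mem_far.1 hw').2 v hvS hv
    by_cases hsing : Tm w' = {w'}
    · have hcw : c (K w) = w' := by
        have := hcTx w hw
        rw [hT, hsing, mem_singleton] at this
        exact this
      have hcl : ∀ v, G.Adj w' v → v ≠ w → v ∈ D := by
        intro v hv hvw
        rcases trichotomy G S v with h | h | h
        · exact absurd h (hnS v hv)
        · exact h
        · exfalso
          apply hvw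
          refine hTxbd w hw w' hw'T v h hv ?_
          rw [hT, hsing, mem_singleton]
          intro h2
          subst h2
          exact G.loopless.irrefl _ hv
      have hex : ∃ u1 ∈ D, u1 ≠ g w' ∧ G.Adj w' u1 := by
        by_contra hcon
        push Not at hcon
        have hh : ∀ v, G.Adj w' v → v = w ∨ v = g w' := by
          intro v hv
          by_cases hvw : v = w
          · exact Or.inl hvw
          · right
            by_contra hvg
            exact hcon v (hcl v hv hvw) hvg hv
        rcases hh x hx with h1 | h1 <;> rcases hh y hy with h2 | h2 <;>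
          rcases hh z hz with h3 | h3 <;>
          first
          | exact hxy (h1.trans h2.symm)
          | exact hxz (h1.trans h3.symm)
          | exact hyz (h2.trans h3.symm)
      have := hc4 (K w) (hKex w hw) (by rw [hcw]; exact hex)
      rw [hcw] at this
      exact this hu
    · have hcl : ∀ v, G.Adj w' v → v ≠ w → v ∈ Tm w' := by
        intro v hv hvw
        rcases trichotomy G S v with h | h | h
        · exact absurd h (hnS v hv)
        · exact absurd hv (hT8 w' hw' hsing v h)
        · by_contra hvT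
          exact hvw (hTxbd w hw w' hw'T v h hv (by rw [hT]; exact hvT))
      have huniq := hT7 w' hw'
      by_cases h1 : x = w
      · have hyw : y ≠ w := fun h => hxy (h1.trans h.symm)
        have hzw : z ≠ w := fun h => hxz (h1.trans h.symm)
        exact hyz (huniq y (hcl y hy hyw) z (hcl z hz hzw) hy hz)
      · by_cases h2 : y = w
        · have hzw : z ≠ w := fun h => hyz (h2.trans h.symm)
          exact hxz (huniq x (hcl x hx h1) z (hcl z hz hzw) hx hz)
        · exact hxy (huniq x (hcl x hx h1) y (hcl y hy h2) hx hy)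
  have hinj : Set.InjOn f ((R ×ˢ (univ : Finset Bool) : Finset (V × Bool)) : Set (V × Bool)) := by
    rintro ⟨w, b⟩ hp ⟨w', b'⟩ hp' heq
    have hw : w ∈ R := (mem_product.1 (mem_coe.1 hp)).1
    have hw' : w' ∈ R := (mem_product.1 (mem_coe.1 hp')).1
    cases b <;> cases b' <;> simp only [hf, if_true, Bool.false_eq_true, if_false,
      Prod.mk.injEq] at heq
    · rw [hinjF w hw w' hw' heq.2]
    · exact absurd ⟨heq.1.symm, heq.2.symm⟩ (hmixed w' hw' w hw)
    · exact absurd heq (hmixed w hw w' hw')
    · rw [hinjT w hw w' hw' heq.2]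
  have hcard := Finset.card_le_card_of_injOn f hmaps hinj
  rw [card_product, card_univ, Fintype.card_bool] at hcard
  omega


lemma mem_connectedSets {G : SimpleGraph V} {S : Finset V} :
    S ∈ connectedSets G ↔ Conn G S := by
  classical
  rw [conn_iff]
  simp [connectedSets]

/-- The triples `(S, u, T)`. -/
noncomputable def triples (G : SimpleGraph V) : Finset (Σ _ : Finset V, V × Finset V) :=
  (connectedSets G).sigma (fun S => pairs G S)

/-- The set obtained from a triple, with its cut vertex. -/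
def glue (p : Σ _ : Finset V, V × Finset V) : Finset V × V :=
  (insert p.2.1 (p.1 ∪ p.2.2), p.2.1)

lemma mem_triples {G : SimpleGraph V} {S T : Finset V} {u : V} :
    (⟨S, (u, T)⟩ : Σ _ : Finset V, V × Finset V) ∈ triples G ↔
      Conn G S ∧ u ∈ bdry G S ∧ Conn G T ∧ T ⊆ far G S ∧ ∃ x ∈ T, G.Adj u x := by
  rw [triples, mem_sigma, mem_connectedSets, mem_pairs]

lemma not_mem_of_triple {G : SimpleGraph V} {S T : Finset V} {u : V}
    (h : (⟨S, (u, T)⟩ : Σ _ : Finset V, V × Finset V) ∈ triples G) : u ∉ S ∪ T := by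
  obtain ⟨h1, h2, h3, h4, h5⟩ := mem_triples.1 h
  rw [mem_union, not_or]
  refine ⟨(mem_bdry.1 h2).1, fun huT => ?_⟩
  obtain ⟨x, hx, hux⟩ := (mem_bdry.1 h2).2
  exact (mem_far.1 (h4 huT)).2 x hx hux

/-- A connected set inside `S ∪ T` (no edges between `S` and `T`) lies inside `S` or `T`. -/
lemma sub_or_sub {G : SimpleGraph V} {S T A : Finset V} (hT : T ⊆ far G S) (hA : Conn G A)
    (hsub : A ⊆ S ∪ T) : A ⊆ S ∨ A ⊆ T := by
  obtain ⟨z, hz⟩ := hA.1
  rcases mem_union.1 (hsub hz) with h | h
  · left
    refine subset_of_closed hA (P := fun y => y ∈ S) hz h ?_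
    intro x _ hx y hy hxy
    rcases mem_union.1 (hsub hy) with h' | h'
    · exact h'
    · exact absurd hxy.symm ((mem_far.1 (hT h')).2 x hx)
  · right
    refine subset_of_closed hA (P := fun y => y ∈ T) hz h ?_
    intro x _ hx y hy hxy
    rcases mem_union.1 (hsub hy) with h' | h'
    · exact absurd hxy ((mem_far.1 (hT hx)).2 y h')
    · exact h'

lemma fiber_subset {G : SimpleGraph V} {S T : Finset V} {u : V}
    (h : (⟨S, (u, T)⟩ : Σ _ : Finset V, V × Finset V) ∈ triples G)
    {q : Σ _ : Finset V, V × Finset V} (hq : q ∈ triples G)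
    (heq : glue q = glue ⟨S, (u, T)⟩) : q = ⟨S, (u, T)⟩ ∨ q = ⟨T, (u, S)⟩ := by
  obtain ⟨S2, u2, T2⟩ := q
  simp only [glue, Prod.mk.injEq] at heq
  obtain ⟨heq1, rfl⟩ := heq
  have hun : S2 ∪ T2 = S ∪ T := by
    have h1 := not_mem_of_triple h
    have h2 := not_mem_of_triple hq
    rw [← erase_insert h1, ← heq1, erase_insert h2]
  obtain ⟨hS, _, hT, hTS, _⟩ := mem_triples.1 h
  obtain ⟨hS2, _, hT2, hTS2, _⟩ := mem_triples.1 hq
  have hdisj : ∀ x, x ∈ S → x ∉ T := fun x hx hxT => (mem_far.1 (hTS hxT)).1 hx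
  have hdisj2 : ∀ x, x ∈ S2 → x ∉ T2 := fun x hx hxT => (mem_far.1 (hTS2 hxT)).1 hx
  have hsub1 : S2 ⊆ S ∪ T := hun ▸ subset_union_left
  have hsub2 : T2 ⊆ S ∪ T := hun ▸ subset_union_right
  have hsub3 : ∀ x, x ∈ S → x ∈ S2 ∨ x ∈ T2 := fun x hx =>
    mem_union.1 (hun ▸ mem_union_left _ hx)
  have hsub4 : ∀ x, x ∈ T → x ∈ S2 ∨ x ∈ T2 := fun x hx =>
    mem_union.1 (hun ▸ mem_union_right _ hx)
  rcases sub_or_sub hTS hS2 hsub1 with hc | hc
  · left
    have hTT2 : T ⊆ T2 := by
      intro x hx
      rcases hsub4 x hx with h' | h'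
      · exact absurd hx (hdisj x (hc h'))
      · exact h'
    have hT2T : T2 ⊆ T := by
      rcases sub_or_sub hTS hT2 hsub2 with h' | h'
      · obtain ⟨z, hz⟩ := hT.1
        exact absurd hz (hdisj z (h' (hTT2 hz)))
      · exact h'
    have hSS2 : S ⊆ S2 := by
      intro x hx
      rcases hsub3 x hx with h' | h'
      · exact h'
      · exact absurd (hT2T h') (hdisj x hx)
    rw [Subset.antisymm hc hSS2, Subset.antisymm hT2T hTT2]
  · right
    have hST2 : S ⊆ T2 := by
      intro x hx
      rcases hsub3 x hx with h' | h'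
      · exact absurd (hc h') (hdisj x hx)
      · exact h'
    have hT2S : T2 ⊆ S := by
      rcases sub_or_sub hTS hT2 hsub2 with h' | h'
      · exact h'
      · obtain ⟨z, hz⟩ := hS.1
        exact absurd (h' (hST2 hz)) (hdisj z hz)
    have hTS2' : T ⊆ S2 := by
      intro x hx
      rcases hsub4 x hx with h' | h'
      · exact h'
      · exact absurd hx (hdisj x (hT2S h'))
    rw [Subset.antisymm hc hTS2', Subset.antisymm hT2S hST2]

lemma card_triples_le (G : SimpleGraph V) :
    (triples G).card ≤ 2 * ((triples G).image glue).card := by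
  classical
  refine Finset.card_le_mul_card_image (triples G) 2 ?_
  intro b hb
  obtain ⟨⟨S, u, T⟩, hp, rfl⟩ := mem_image.1 hb
  refine le_trans (card_le_card (t := {⟨S, (u, T)⟩, ⟨T, (u, S)⟩}) ?_) card_le_two
  intro q hq
  rw [mem_filter] at hq
  rw [mem_insert, mem_singleton]
  exact fiber_subset hp hq.1 hq.2

/-- Pairs `(S, w)` with `S` connected, `w ∈ S` and `S \ {w}` not a connected set. -/
noncomputable def badDown (G : SimpleGraph V) : Finset (Finset V × V) :=
  open Classical in
  univ.filter (fun p => Conn G p.1 ∧ p.2 ∈ p.1 ∧ ¬ Conn G (p.1.erase p.2))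

lemma mem_badDown {G : SimpleGraph V} {p : Finset V × V} :
    p ∈ badDown G ↔ Conn G p.1 ∧ p.2 ∈ p.1 ∧ ¬ Conn G (p.1.erase p.2) := by
  classical
  simp [badDown]

lemma image_glue_subset (G : SimpleGraph V) :
    (triples G).image glue ⊆ badDown G := by
  intro p hp
  obtain ⟨⟨S, u, T⟩, hq, rfl⟩ := mem_image.1 hp
  have hu := not_mem_of_triple hq
  obtain ⟨hS, huS, hT, hTS, x, hx, hux⟩ := mem_triples.1 hq
  obtain ⟨y, hy, huy⟩ := (mem_bdry.1 huS).2
  rw [mem_badDown]
  simp only [glue]
  refine ⟨?_, mem_insert_self _ _, ?_⟩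
  · have h1 := conn_insert hS hy huy
    have h2 := conn_insert hT hx hux
    have h3 := conn_union h1 h2 (mem_insert_self _ _) (mem_insert_self _ _)
    have : insert u S ∪ insert u T = insert u (S ∪ T) := by
      ext z
      simp only [mem_union, mem_insert]
      tauto
    rwa [this] at h3
  · rw [erase_insert hu]
    intro hcon
    rcases sub_or_sub hTS hcon subset_rfl with h | h
    · obtain ⟨z, hz⟩ := hT.1
      exact (mem_far.1 (hTS hz)).1 (h (mem_union_right _ hz))
    · obtain ⟨z, hz⟩ := hS.1
      exact (mem_far.1 (hTS (h (mem_union_left _ hz)))).1 hz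

lemma card_badDown_ge (G : SimpleGraph V) :
    ((triples G).image glue).card + Fintype.card V ≤ (badDown G).card := by
  classical
  set sing : Finset (Finset V × V) := univ.image (fun v : V => (({v} : Finset V), v)) with hs
  have hcard : sing.card = Fintype.card V := by
    rw [hs, card_image_of_injective _ (fun a b h => (Prod.mk.inj h).2), card_univ]
  have hsub : sing ⊆ badDown G := by
    intro p hp
    obtain ⟨v, _, rfl⟩ := mem_image.1 hp
    rw [mem_badDown]
    refine ⟨conn_singleton G v, mem_singleton_self v, ?_⟩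
    simp only [erase_singleton]
    rintro ⟨h, _⟩
    exact absurd h not_nonempty_empty
  have hdisj : Disjoint ((triples G).image glue) sing := by
    rw [disjoint_left]
    intro p hp hp2
    obtain ⟨⟨S, u, T⟩, hq, rfl⟩ := mem_image.1 hp
    obtain ⟨v, _, hv⟩ := mem_image.1 hp2
    simp only [glue, Prod.mk.injEq] at hv
    obtain ⟨hv1, rfl⟩ := hv
    have hu := not_mem_of_triple hq
    obtain ⟨hS, _⟩ := mem_triples.1 hq
    obtain ⟨z, hz⟩ := hS.1
    have h1 : z ∈ ({v} : Finset V) := by
      rw [hv1]
      exact mem_insert_of_mem (mem_union_left _ hz)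
    rw [mem_singleton] at h1
    subst h1
    exact hu (mem_union_left _ hz)
  rw [← hcard, ← card_union_of_disjoint hdisj]
  exact card_le_card (union_subset (image_glue_subset G) hsub)

/-- The global inequality in integers. -/
lemma main_ineq {G : SimpleGraph V} (hG : G.Connected)
    (hdeg : ∀ v, ∃ x y z, G.Adj v x ∧ G.Adj v y ∧ G.Adj v z ∧ x ≠ y ∧ x ≠ z ∧ y ≠ z) :
    (connectedSets G).card * Fintype.card V + Fintype.card V ≤
      2 * ∑ S ∈ connectedSets G, S.card := by
  classical
  -- pairs going down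
  have hX : ∑ S ∈ connectedSets G, S.card =
      ∑ S ∈ connectedSets G, (S.filter (fun w => Conn G (S.erase w))).card +
        ∑ S ∈ connectedSets G, (S.filter (fun w => ¬ Conn G (S.erase w))).card := by
    rw [← sum_add_distrib]
    refine sum_congr rfl fun S _ => ?_
    rw [card_filter_add_card_filter_not]
  have hY : ∑ S ∈ connectedSets G, (univ \ S).card =
      ∑ S ∈ connectedSets G, ((univ \ S).filter (fun w => Conn G (insert w S))).card +
        ∑ S ∈ connectedSets G, ((univ \ S).filter (fun w => ¬ Conn G (insert w S))).card := by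
    rw [← sum_add_distrib]
    refine sum_congr rfl fun S _ => ?_
    rw [card_filter_add_card_filter_not]
  have hXY : ∑ S ∈ connectedSets G, (S.filter (fun w => Conn G (S.erase w))).card =
      ∑ S ∈ connectedSets G, ((univ \ S).filter (fun w => Conn G (insert w S))).card := by
    rw [← card_sigma, ← card_sigma]
    refine card_bij' (fun p _ => ⟨p.1.erase p.2, p.2⟩) (fun p _ => ⟨insert p.2 p.1, p.2⟩)
      ?_ ?_ ?_ ?_
    · rintro ⟨S, w⟩ hp
      rw [mem_sigma, mem_filter, mem_connectedSets] at hp
      rw [mem_sigma, mem_filter, mem_connectedSets]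
      refine ⟨hp.2.2, ?_, ?_⟩
      · simp
      · simp only
        rw [insert_erase hp.2.1]
        exact hp.1
    · rintro ⟨S, w⟩ hp
      rw [mem_sigma, mem_filter, mem_connectedSets] at hp
      rw [mem_sigma, mem_filter, mem_connectedSets]
      have hw : w ∉ S := (mem_sdiff.1 hp.2.1).2
      refine ⟨hp.2.2, mem_insert_self _ _, ?_⟩
      simp only
      rw [erase_insert hw]
      exact hp.1
    · rintro ⟨S, w⟩ hp
      rw [mem_sigma, mem_filter] at hp
      simp only
      rw [insert_erase hp.2.1]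
    · rintro ⟨S, w⟩ hp
      rw [mem_sigma, mem_filter] at hp
      have hw : w ∉ S := (mem_sdiff.1 hp.2.1).2
      simp only
      rw [erase_insert hw]
  have hbad : ∑ S ∈ connectedSets G, (S.filter (fun w => ¬ Conn G (S.erase w))).card =
      (badDown G).card := by
    rw [← card_sigma]
    refine card_bij (fun p _ => (p.1, p.2)) ?_ ?_ ?_
    · rintro ⟨S, w⟩ hp
      rw [mem_sigma, mem_filter, mem_connectedSets] at hp
      exact mem_badDown.2 ⟨hp.1, hp.2.1, hp.2.2⟩
    · rintro ⟨S, w⟩ _ ⟨S', w'⟩ _ h
      simp only [Prod.mk.injEq] at h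
      obtain ⟨rfl, rfl⟩ := h
      rfl
    · rintro ⟨S, w⟩ hp
      have := mem_badDown.1 hp
      refine ⟨⟨S, w⟩, ?_, rfl⟩
      rw [mem_sigma, mem_filter, mem_connectedSets]
      exact ⟨this.1, this.2.1, this.2.2⟩
  have hfar : ∑ S ∈ connectedSets G, ((univ \ S).filter (fun w => ¬ Conn G (insert w S))).card ≤
      ∑ S ∈ connectedSets G, (far G S).card := by
    refine sum_le_sum fun S hS => card_le_card ?_
    intro w hw
    rw [mem_filter, mem_sdiff] at hw
    rw [mem_far]
    refine ⟨hw.1.2, fun x hx hwx => hw.2 ?_⟩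
    exact conn_insert (mem_connectedSets.1 hS) hx hwx
  have hpairs : 2 * ∑ S ∈ connectedSets G, (far G S).card ≤ (triples G).card := by
    rw [triples, card_sigma, mul_sum]
    refine sum_le_sum fun S hS => ?_
    exact two_mul_card_far_le hG hdeg (mem_connectedSets.1 hS).1
  have h2 := card_triples_le G
  have h3 := card_badDown_ge G
  have hcompl : ∑ S ∈ connectedSets G, S.card + ∑ S ∈ connectedSets G, (univ \ S).card =
      (connectedSets G).card * Fintype.card V := by
    rw [← sum_add_distrib, ← smul_eq_mul, ← sum_const]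
    refine sum_congr rfl fun S _ => ?_
    rw [card_sdiff_of_subset (subset_univ S), card_univ]
    have := card_le_univ S
    omega
  omega

end Proof

/-- **Vince's conjecture** on the connected set density at minimum degree three: every finite
simple connected graph `G` with minimum degree at least `3` satisfies
`D(G) ≥ 1/2 + 1/(2 N(G))`, in particular `D(G) > 1/2`. -/
theorem result {V : Type u} [Fintype V] (G : SimpleGraph V) [DecidableRel G.Adj]
    (hG : G.Connected) (hdeg : 3 ≤ G.minDegree) :
    1 / 2 + 1 / (2 * (numConnectedSets G : ℝ)) ≤ density G := by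
  classical
  have hdeg' : ∀ v, ∃ x y z, G.Adj v x ∧ G.Adj v y ∧ G.Adj v z ∧ x ≠ y ∧ x ≠ z ∧ y ≠ z := by
    intro v
    have h1 : 2 < (G.neighborFinset v).card := by
      have := G.minDegree_le_degree v
      rw [SimpleGraph.card_neighborFinset_eq_degree]
      omega
    obtain ⟨a, ha, b, hb, c, hc, hab, hac, hbc⟩ := Finset.two_lt_card.1 h1
    rw [SimpleGraph.mem_neighborFinset] at ha hb hc
    exact ⟨a, b, c, ha, hb, hc, hab, hac, hbc⟩
  have hmain := main_ineq hG hdeg'
  obtain ⟨v0⟩ := hG.nonempty
  have hn : 0 < Fintype.card V := Fintype.card_pos_iff.2 ⟨v0⟩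
  have hN : 0 < (connectedSets G).card := by
    refine card_pos.2 ⟨{v0}, ?_⟩
    rw [mem_connectedSets]
    exact conn_singleton G v0
  have hnR : (0 : ℝ) < (Fintype.card V : ℝ) := by exact_mod_cast hn
  have hNR : (0 : ℝ) < ((connectedSets G).card : ℝ) := by exact_mod_cast hN
  have hmainR : ((connectedSets G).card : ℝ) * (Fintype.card V : ℝ) + (Fintype.card V : ℝ) ≤
      2 * ∑ S ∈ connectedSets G, (S.card : ℝ) := by exact_mod_cast hmain
  unfold density averageOrder numConnectedSets
  rw [div_div, le_div_iff₀ (by positivity)]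
  have : (1 / 2 + 1 / (2 * ((connectedSets G).card : ℝ))) *
      (((connectedSets G).card : ℝ) * (Fintype.card V : ℝ)) =
      (((connectedSets G).card : ℝ) * (Fintype.card V : ℝ) + (Fintype.card V : ℝ)) / 2 := by
    field_simp
  rw [this]
  linarith


end Pool.Agent.Results.MP_900e3c_co.VinceMinDegreeThree
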